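import Mathlib

/-!
# Symmetric designs with 16 points and block size 10 have no 0-ULSE 6-colouring
-/

namespace Pool.Agent.Results.MP_9fbb3c_co.SixteenTen

open Finset

/-- A symmetric BIBD with `v` points, block size `k` and index `lam`: `v` blocks (given as a family,
repetitions allowed) of size `k`, two distinct points lie in exactly `lam` blocks. -/
def IsSymBIBD (v k lam : ℕ) (B : Fin v → Finset (Fin v)) : Prop :=
  2 ≤ k ∧ k < v ∧ 1 ≤ lam ∧ (∀ i, (B i).card = k) ∧
    ∀ x y, x ≠ y → (univ.filter fun i => x ∈ B i ∧ y ∈ B i).card = lam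

/-- `0`-ULSE `l`-colourings of the blocks `B` of size `k`. -/
def IsColouring (v k l : ℕ) (B : Fin v → Finset (Fin v)) (f : Fin v → Fin l) : Prop :=
  Function.Surjective f ∧ (l - 1) ∣ k ∧
    ∀ i, ∃ c, ((B i).filter fun x => f x = c).card = 0 ∧
      ∀ d, d ≠ c → ((B i).filter fun x => f x = d).card = k / (l - 1) ∧ 0 < k / (l - 1)

/-- the condition `v = l (l-2) k / ((l-1)² - k)` -/
def Star (v k l : ℕ) : Prop :=
  2 ≤ l ∧ k < (l - 1) ^ 2 ∧ v * ((l - 1) ^ 2 - k) = l * (l - 2) * k

/-- complement of the square lattice design on a 4 × 4 grid -/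
def G (i : Fin 16) : Finset (Fin 16) :=
  univ.filter fun x => ¬ ((x.1 / 4 = i.1 / 4 ∨ x.1 % 4 = i.1 % 4) ∧ x ≠ i)

theorem G_design : IsSymBIBD 16 10 6 G := by
  refine ⟨by norm_num, by norm_num, by norm_num, ?_, ?_⟩
  · decide +kernel
  · decide +kernel

section
variable {lam : ℕ} {B : Fin 16 → Finset (Fin 16)}

/-- number of blocks through a point -/
def deg (B : Fin 16 → Finset (Fin 16)) (x : Fin 16) : ℕ := (univ.filter fun i => x ∈ B i).card

theorem deg_eq (h : IsSymBIBD 16 10 lam B) (x : Fin 16) : 9 * deg B x = 15 * lam := by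
  obtain ⟨-, -, -, hk, hl⟩ := h
  have h1 : ∑ y ∈ univ.erase x, (univ.filter fun i => x ∈ B i ∧ y ∈ B i).card = 15 * lam := by
    rw [Finset.sum_congr rfl (fun y hy => hl x y (Finset.ne_of_mem_erase hy).symm)]
    simp
  have h2 : ∑ y ∈ univ.erase x, (univ.filter fun i => x ∈ B i ∧ y ∈ B i).card =
      ∑ i ∈ univ.filter (fun i => x ∈ B i), ((B i).erase x).card := by
    simp only [Finset.card_filter]
    rw [Finset.sum_comm, Finset.sum_filter]
    apply Finset.sum_congr rfl
    intro i _
    split_ifs with hx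
    · rw [← Finset.sum_filter, Finset.card_eq_sum_ones]
      apply Finset.sum_congr _ (fun _ _ => rfl)
      ext y
      simp [hx]
    · simp [hx]
  have h3 : ∑ i ∈ univ.filter (fun i => x ∈ B i), ((B i).erase x).card = deg B x * 9 := by
    rw [Finset.sum_congr rfl (g := fun _ => 9), Finset.sum_const, smul_eq_mul, deg]
    intro i hi
    rw [Finset.card_erase_of_mem (Finset.mem_filter.1 hi).2, hk]
  omega

theorem sum_deg (h : IsSymBIBD 16 10 lam B) : ∑ x, deg B x = 160 := by
  unfold deg
  simp only [Finset.card_filter]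
  rw [Finset.sum_comm]
  have : ∀ i ∈ (univ : Finset (Fin 16)), ∑ x, (if x ∈ B i then 1 else 0) = 10 := by
    intro i _
    rw [← h.2.2.2.1 i, Finset.card_eq_sum_ones, ← Finset.sum_filter]
    apply Finset.sum_congr _ (fun _ _ => rfl)
    ext y
    simp
  rw [Finset.sum_congr rfl this]
  simp

theorem lam_eq (h : IsSymBIBD 16 10 lam B) : lam = 6 := by
  have h1 := sum_deg h
  have h2 : ∑ x, 9 * deg B x = ∑ _x : Fin 16, 15 * lam :=
    Finset.sum_congr rfl fun x _ => deg_eq h x
  rw [← Finset.mul_sum, h1] at h2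
  simp at h2
  omega

theorem no_colouring (h : IsSymBIBD 16 10 lam B) (f : Fin 16 → Fin 6) :
    ¬ IsColouring 16 10 6 B f := by
  rintro ⟨hsurj, -, hcol⟩
  have hlam := lam_eq h
  subst hlam
  set S : Finset (Fin 16) := univ.filter fun x => f x = 0 with hS
  have hpos : 0 < S.card := by
    obtain ⟨x, hx⟩ := hsurj 0
    exact Finset.card_pos.2 ⟨x, by simp [hS, hx]⟩
  -- block intersections
  have hint : ∀ i, ((B i).filter fun x => f x = 0).card = 0 ∨
      ((B i).filter fun x => f x = 0).card = 2 := by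
    intro i
    obtain ⟨c, hc, hd⟩ := hcol i
    by_cases h0 : (0 : Fin 6) = c
    · left
      rw [h0]
      exact hc
    · right
      exact (hd 0 h0).1
  -- double counting
  have hdeg : ∀ x, deg B x = 10 := fun x => by
    have := deg_eq h x
    omega
  have hm : ∀ i, ((B i).filter fun x => f x = 0).card = ∑ x ∈ S, (if x ∈ B i then 1 else 0) := by
    intro i
    rw [← Finset.card_filter]
    congr 1
    ext y
    simp [hS, and_comm]
  have h1 : ∑ i, ((B i).filter fun x => f x = 0).card = 10 * S.card := by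
    rw [Finset.sum_congr rfl fun i _ => hm i, Finset.sum_comm]
    have h2 : ∀ x ∈ S, ∑ i, (if x ∈ B i then 1 else 0) = 10 := by
      intro x _
      have h0 := hdeg x
      rw [deg, Finset.card_filter] at h0
      exact h0
    rw [Finset.sum_congr rfl h2]
    simp [mul_comm]
  have h3 : ∑ i, ((B i).filter fun x => f x = 0).card * ((B i).filter fun x => f x = 0).card =
      S.card * (10 + (S.card - 1) * 6) := by
    have h4 : ∀ i, ((B i).filter fun x => f x = 0).card * ((B i).filter fun x => f x = 0).card =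
        ∑ x ∈ S, ∑ y ∈ S, (if x ∈ B i ∧ y ∈ B i then 1 else 0) := by
      intro i
      rw [hm i, Finset.sum_mul_sum]
      apply Finset.sum_congr rfl
      intro x _
      apply Finset.sum_congr rfl
      intro y _
      by_cases hx : x ∈ B i <;> by_cases hy : y ∈ B i <;> simp [hx, hy]
    rw [Finset.sum_congr rfl fun i _ => h4 i, Finset.sum_comm]
    have h5 : ∀ x ∈ S, ∑ i, ∑ y ∈ S, (if x ∈ B i ∧ y ∈ B i then 1 else 0) =
        10 + (S.card - 1) * 6 := by
      intro x hx
      have h0 := hdeg x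
      rw [deg, Finset.card_filter] at h0
      have h0' : ∑ i, (if x ∈ B i ∧ x ∈ B i then 1 else 0) = 10 := by
        simpa only [and_self] using h0
      have h6 : ∀ y ∈ S.erase x, ∑ i, (if x ∈ B i ∧ y ∈ B i then 1 else 0) = 6 := by
        intro y hy
        rw [← Finset.card_filter]
        exact h.2.2.2.2 x y (Finset.ne_of_mem_erase hy).symm
      rw [Finset.sum_comm, ← Finset.add_sum_erase S _ hx, h0', Finset.sum_congr rfl h6,
        Finset.sum_const, Finset.card_erase_of_mem hx, smul_eq_mul]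
    rw [Finset.sum_congr rfl h5, Finset.sum_const, smul_eq_mul]
  have h7 : ∑ i, ((B i).filter fun x => f x = 0).card * ((B i).filter fun x => f x = 0).card =
      2 * ∑ i, ((B i).filter fun x => f x = 0).card := by
    rw [Finset.mul_sum]
    apply Finset.sum_congr rfl
    intro i _
    rcases hint i with h8 | h8
    · simp only [h8, Nat.mul_zero]
    · simp only [h8]
  rw [h3, h1] at h7
  have h9 : S.card * (10 + (S.card - 1) * 6) = S.card * 20 := by rw [h7]; ring
  have h10 := Nat.eq_of_mul_eq_mul_left hpos h9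
  omega

end

/-- The parameters `(v, k, l) = (16, 10, 6)` satisfy the condition and symmetric designs with them
exist, but none of them has a `0`-ULSE `6`-colouring. -/
theorem result : (Star 16 10 6 ∧ (∃ lam B, IsSymBIBD 16 10 lam B) ∧
      ∀ lam B, IsSymBIBD 16 10 lam B → ∀ f, ¬ IsColouring 16 10 6 B f) ∧
    ¬ ∀ v k l : ℕ, 1 ≤ v → 1 ≤ k → 1 ≤ l → Star v k l →
      (∃ lam, ∃ B : Fin v → Finset (Fin v), IsSymBIBD v k lam B) →
      ∃ lam, ∃ B : Fin v → Finset (Fin v), IsSymBIBD v k lam B ∧
        ∃ f : Fin v → Fin l, IsColouring v k l B f := by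
  have hst : Star 16 10 6 := ⟨by norm_num, by norm_num, by norm_num⟩
  refine ⟨⟨hst, ⟨6, G, G_design⟩, fun lam B h f => no_colouring h f⟩, fun h => ?_⟩
  obtain ⟨lam, B, hB, f, hf⟩ := h 16 10 6 (by norm_num) (by norm_num) (by norm_num) hst
    ⟨6, G, G_design⟩
  exact no_colouring hB f hf

end Pool.Agent.Results.MP_9fbb3c_co.SixteenTen
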